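import Mathlib
import Pool.Agent.U980.EQ.Meas

/-!
# Special points on Shimura varieties: the data and the known facts
-/

set_option autoImplicit false

namespace Pool.Agent.U980.SH

open MeasureTheory Filter Topology ProbabilityTheory MulAction

/-- The data of a connected component `S` of a Shimura variety, for the group `G = Gal(ℚ̄/ℚ)`. The Shimura variety
is considered as a scheme over `ℚ` (not geometrically connected), so that `G` acts on its points. -/
structure SpecialPoints (G : Type) [Group G] where
  /-- the special points of the Shimura variety, with the action of `G` -/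
  P : Type
  [act : MulAction G P]
  /-- the Galois group of `ℚ̄` over the splitting field `R` (a CM field, Galois over `ℚ`) of the
  Mumford-Tate group of a special point -/
  gal : P → Subgroup G
  /-- the Galois group of `ℚ̄` over the maximal totally real subfield `R⁺` of `R` -/
  real : P → Subgroup G
  /-- the size (discriminant) of a special point -/
  size : P → ℕ
  /-- the space of complex points of the Shimura variety -/
  X : Type
  [top : TopologicalSpace X]
  [metr : TopologicalSpace.MetrizableSpace X]
  [sc : SecondCountableTopology X]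
  [ms : MeasurableSpace X]
  [bs : BorelSpace X]
  /-- the complex point given by a special point -/
  pt : P → X
  /-- the special points which lie on the component `S` -/
  comp : Set P
  /-- the invariant probability measure on `S` -/
  m : Measure X
  [prob : IsProbabilityMeasure m]

attribute [instance] SpecialPoints.act SpecialPoints.top SpecialPoints.metr SpecialPoints.sc SpecialPoints.ms
  SpecialPoints.bs SpecialPoints.prob

variable {G : Type} [Group G]

/-- The conjugates `σ y` of a special point `y` over `R` with `σ² y = y`: the 2-torsion of the Galois group of the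
field of definition of `y` over `R`. -/
def torsion (Y : SpecialPoints G) (y : Y.P) : Set Y.P :=
  {z | ∃ σ ∈ Y.gal y, σ • y = z ∧ σ • σ • y = y}

/-- The facts which follow from the theory of complex multiplication (the reciprocity law), and the bound
for the 2-torsion. Here `Γ = Gal(ℚ̄/E)`, `Γ₁ = Gal(ℚ̄/E₁)` with a number field `E₁` which contains `E` and a ray class
field, depending on the level, of the field of definition of the weight. -/
structure IsSpecial (Γ Γ₁ : Subgroup G) (Y : SpecialPoints G) : Prop where
  pt_inj : Function.Injective Y.pt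
  comp_smul : ∀ g ∈ Γ, ∀ y ∈ Y.comp, g • y ∈ Y.comp
  gal_smul : ∀ (g : G) (y : Y.P), Y.gal (g • y) = Y.gal y
  real_smul : ∀ (g : G) (y : Y.P), Y.real (g • y) = Y.real y
  size_smul : ∀ (g : G) (y : Y.P), Y.size (g • y) = Y.size y
  /-- special points are algebraic -/
  finite_orbit : ∀ y : Y.P, (orbit G y).Finite
  /-- there are finitely many special points of bounded size -/
  finite_size : ∀ B : ℕ, {y | Y.size y ≤ B}.Finite
  /-- `R` is Galois over `ℚ`, of bounded degree -/
  gal_normal : ∀ y, (Y.gal y).Normal
  gal_index : ∀ y, (Y.gal y).index ≠ 0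
  bounded : ∃ C : ℕ, ∀ y, (Y.gal y).index ≤ C
  /-- special points are defined over abelian extensions of `R` -/
  comm : ∀ y, ∀ σ ∈ Y.gal y, ∀ τ ∈ Y.gal y, σ • τ • y = τ • σ • y
  /-- complex conjugation acts on `Gal(R(y)/R)` by `-1`, over `E₁` -/
  inv : ∀ y, ∀ g ∈ Y.real y, g ∉ Y.gal y → ∀ σ ∈ Y.gal y, σ ∈ Γ₁ → (g * σ * g⁻¹ * σ) • y = y
  /-- the 2-torsion is small -/
  tor : ∀ ε : ℝ, 0 < ε → ∃ C : ℝ, ∀ y, ((torsion Y y).ncard : ℝ) ≤ C * (Y.size y : ℝ) ^ ε
  /-- an upper bound for the Galois orbits -/
  orbit_le : ∃ C : ℝ, ∀ y, ((orbit G y).ncard : ℝ) ≤ C * Y.size y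

/-- Equidistribution of the orbits of large subgroups of the Galois group on one component `S`: if the special
points `y i` on `S` have sizes which tend to infinity, and the orbits of `y i` under subgroups `Δ i` of
`Gal(ℚ̄/R E)` are not smaller than the orbits under `Γ = Gal(ℚ̄/E)` by a factor of more than `size ^ δ`, then they
are equidistributed. -/
def SparseEquidistribution (Γ : Subgroup G) (Y : SpecialPoints G) (δ : ℝ) : Prop :=
  ∀ (y : ℕ → Y.P) (Δ : ℕ → Subgroup G), (∀ i, y i ∈ Y.comp) →
    (∀ i, Δ i ≤ Γ ⊓ Y.gal (y i)) → Tendsto (fun i => Y.size (y i)) atTop atTop →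
    (∀ᶠ i in atTop, ((orbit Γ (y i)).ncard : ℝ) ≤
      (Y.size (y i) : ℝ) ^ δ * (orbit (Δ i) (y i)).ncard) →
    ∀ f : BoundedContinuousFunction Y.X ℝ,
      Tendsto (fun i => ∫ z, f z ∂(uniformOn (Y.pt '' orbit (Δ i) (y i)))) atTop
        (𝓝 (∫ z, f z ∂Y.m))

section tuple

variable {ι : Type} {Y : ι → SpecialPoints G}

/-- The CM fields `R(x_j)` and `R(x_k)` are linked in the tuple `x`: let `L⁺` be the composite of all the
totally real fields `R(x_l)⁺`; every automorphism of `ℚ̄` over `L⁺ R(x_j)` is trivial on `R(x_k)`, that is,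
`R(x_k)` is contained in `L⁺ R(x_j)`. -/
def Linked (x : ∀ j, (Y j).P) (j k : ι) : Prop :=
  ∀ g : G, (∀ l, g ∈ (Y l).real (x l)) → g ∈ (Y j).gal (x j) → g ∈ (Y k).gal (x k)

/-- `Gal(ℚ̄/L)`, where `L` is the composite of `E₁` and all the fields `R(x_l)`. -/
def coreOf (Γ₁ : Subgroup G) (x : ∀ j, (Y j).P) : Subgroup G := Γ₁ ⊓ ⨅ l, (Y l).gal (x l)

/-- The overlap of the `j`-th coordinate: the degree over `L` of the intersection of `L(x_j)` with the
composite of the fields `L(x_k)` for the `k` which precede `j` (in the order given by the ranks `r`) and are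
linked with `j`. -/
noncomputable def overlap (Γ₁ : Subgroup G) (r : ι → ℕ) (x : ∀ j, (Y j).P) (j : ι) : ℕ :=
  (stabilizer (coreOf Γ₁ x) (x j) ⊔
    ⨅ k, ⨅ _ : r k < r j ∧ Linked x j k, stabilizer (coreOf Γ₁ x) (x k)).index

/-- The uniform probability measure on the Galois orbit of `x`. -/
noncomputable def galoisMeasure (Γ : Subgroup G) (x : ∀ j, (Y j).P) : Measure (∀ j, (Y j).X) :=
  uniformOn ((fun (y : ∀ j, (Y j).P) j => (Y j).pt (y j)) '' orbit Γ x)

end tuple

end Pool.Agent.U980.SH
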