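import Mathlib
import Pool.Agent.U980.EQ.Idx
import Pool.Agent.U980.SH.Defs

/-!
# Group theory: doubling, and the subgroup which moves only one coordinate
-/

set_option autoImplicit false
set_option linter.style.haveILetI false

namespace Pool.Agent.U980.SH

open Subgroup MulAction Pool.Agent.U980.EQ

section abs

variable {V : Type} [Group V] {ι : Type} [DecidableEq ι]

/-- Iterated doubling. -/
theorem iterate (K : ι → Subgroup V) (hK : ∀ j, (K j).Normal) (j : ι) (φ : ι → V →* V) (s : Finset ι)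
    (h1 : ∀ k ∈ s, ∀ v, φ k v * v⁻¹ ∈ K j) (h2 : ∀ k ∈ s, ∀ v, φ k v * v ∈ K k)
    (h3 : ∀ k ∈ s, ∀ l, ∀ v ∈ K l, φ k v ∈ K l) (B : Subgroup V) (hB : ∀ k ∈ s, ∀ v ∈ B, φ k v ∈ B)
    (u : V) (hu : u ∈ B) :
    ∃ v ∈ B, (∀ k ∈ s, v ∈ K k) ∧ (QuotientGroup.mk v : V ⧸ K j) = QuotientGroup.mk u ^ 2 ^ s.card := by
  haveI := hK j
  induction s using Finset.induction_on with
  | empty => exact ⟨u, hu, by simp, by simp⟩
  | insert k s hk ih =>
    obtain ⟨v, hvB, hv, hvu⟩ := ih (fun l hl => h1 l (Finset.mem_insert_of_mem hl))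
      (fun l hl => h2 l (Finset.mem_insert_of_mem hl)) (fun l hl => h3 l (Finset.mem_insert_of_mem hl))
      (fun l hl => hB l (Finset.mem_insert_of_mem hl))
    have hks := Finset.mem_insert_self k s
    refine ⟨v * φ k v, B.mul_mem hvB (hB k hks v hvB), ?_, ?_⟩
    · intro l hl
      rcases Finset.mem_insert.1 hl with rfl | hl
      · have h := (hK l).conj_mem _ (h2 l hks v) v
        have e : v * (φ l v * v) * v⁻¹ = v * φ l v := by group
        rwa [e] at h
      · exact (K l).mul_mem (hv l hl) (h3 k hks l v (hv l hl))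
    · have e : (QuotientGroup.mk (φ k v) : V ⧸ K j) = QuotientGroup.mk v := by
        rw [QuotientGroup.eq_iff_div_mem, div_eq_mul_inv]
        exact h1 k hks v
      rw [QuotientGroup.mk_mul, e, ← sq, hvu, Finset.card_insert_of_notMem hk, ← pow_mul, ← pow_succ]

theorem index_le (K : ι → Subgroup V) (hc : ∀ j, ∀ σ τ : V, σ * τ * σ⁻¹ * τ⁻¹ ∈ K j)
    (hfin : ∀ j, (K j).index ≠ 0) (j : ι) (φ : ι → V →* V) (s : Finset ι)
    (h1 : ∀ k ∈ s, ∀ v, φ k v * v⁻¹ ∈ K j) (h2 : ∀ k ∈ s, ∀ v, φ k v * v ∈ K k)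
    (h3 : ∀ k ∈ s, ∀ l, ∀ v ∈ K l, φ k v ∈ K l) (B : Subgroup V) (hB : ∀ k ∈ s, ∀ v ∈ B, φ k v ∈ B) :
    (K j).index ≤ (K j ⊔ B).index * tor ⊤ (K j) ^ s.card *
      (K j).relIndex (B ⊓ ⨅ k, (if k ∈ s then K k else ⊤)) := by
  have hK : ∀ j, (K j).Normal := by
    intro l
    refine ⟨fun n hn g => ?_⟩
    have h := (K l).mul_mem (hc l g n) hn
    rwa [inv_mul_cancel_right] at h
  haveI := hK j
  have key := relIndex_le_of_pow (N := K j) (Gj := ⊤) (B := B)
    (W := B ⊓ ⨅ k, (if k ∈ s then K k else ⊤)) (by rw [relIndex_top_right]; exact hfin j)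
    (fun σ _ τ _ => hc j σ τ) le_top le_top s.card (by
      intro b hb
      obtain ⟨v, hvB, hv, hvb⟩ := iterate K hK j φ s h1 h2 h3 B hB b hb
      refine ⟨v, ⟨hvB, ?_⟩, hvb⟩
      change v ∈ (⨅ k, (if k ∈ s then K k else ⊤) : Subgroup V)
      rw [mem_iInf]
      intro k
      split_ifs with hk
      · exact hv k hk
      · exact mem_top v)
  have e : (K j).relIndex B * (K j ⊔ B).index = (K j).index := by
    have h := relIndex_mul_index (le_sup_left : K j ≤ K j ⊔ B)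
    rw [sup_comm, relIndex_sup_right] at h
    rwa [sup_comm] at h
  rw [← e, mul_comm ((K j).relIndex B), mul_assoc]
  exact Nat.mul_le_mul_left _ key

end abs

variable {G : Type} [Group G]

theorem orbit_map {P : Type} [MulAction G P] (V : Subgroup G) (D : Subgroup V) (p : P) :
    orbit (D.map V.subtype) p = orbit D p := by
  ext q
  constructor
  · rintro ⟨⟨_, d, hd, rfl⟩, rfl⟩
    exact ⟨⟨d, hd⟩, rfl⟩
  · rintro ⟨d, rfl⟩
    exact ⟨⟨(d : V), d, d.2, rfl⟩, rfl⟩

theorem tor_le {Γ Γ₁ : Subgroup G} {Y : SpecialPoints G} (hY : IsSpecial Γ Γ₁ Y) (y : Y.P) (V : Subgroup G)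
    (hV : V ≤ Y.gal y) : tor ⊤ (stabilizer V y) ≤ (torsion Y y).ncard := by
  have hfin : (torsion Y y).Finite := by
    refine (hY.finite_orbit y).subset ?_
    rintro _ ⟨σ, -, rfl, -⟩
    exact ⟨σ, rfl⟩
  refine Set.ncard_le_ncard_of_injOn (fun q => ofQuotientStabilizer V y q) ?_
    (fun a _ b _ h => injective_ofQuotientStabilizer V y h) hfin
  rintro _ ⟨σ, ⟨-, hσ⟩, rfl⟩
  refine ⟨(σ : G), hV σ.2, rfl, ?_⟩
  have h : σ ^ 2 • y = y := hσ
  rw [sq, mul_smul] at h
  exact h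

/-- The subgroup `Δ j` of `coreOf Γ₁ x` moves only the `j`-th coordinate and those which follow. -/
theorem exists_delta {ι : Type} [Fintype ι] {Y : ι → SpecialPoints G} {Γ Γ₁ : Subgroup G}
    (hΓ₁ : Γ₁.Normal) (hY : ∀ j, IsSpecial Γ Γ₁ (Y j)) (r : ι → ℕ) (x : ∀ j, (Y j).P) :
    ∃ Δ : ι → Subgroup G,
      (∀ j, Δ j ≤ coreOf Γ₁ x) ∧ (∀ j, ∀ v ∈ coreOf Γ₁ x, ∀ d ∈ Δ j, v * d * v⁻¹ ∈ Δ j) ∧
      (∀ j k, r k < r j → ∀ d ∈ Δ j, ∀ v ∈ coreOf Γ₁ x, d • v • x k = v • x k) ∧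
      ∀ j, (orbit (coreOf Γ₁ x) (x j)).ncard ≤
        overlap Γ₁ r x j * (torsion (Y j) (x j)).ncard ^ Fintype.card ι * (orbit (Δ j) (x j)).ncard := by
  classical
  have hinv : ∀ j y, ∀ g ∈ (Y j).real y, g ∉ (Y j).gal y → ∀ σ ∈ (Y j).gal y, σ ∈ Γ₁ →
      (g * σ * g⁻¹ * σ) • y = y := fun j => (hY j).inv
  set V := coreOf Γ₁ x with hV
  have hVn : V.Normal := by
    haveI : (⨅ l, (Y l).gal (x l)).Normal := normal_iInf_normal fun l => (hY l).gal_normal (x l)
    change (Γ₁ ⊓ _ : Subgroup G).Normal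
    infer_instance
  have hVΓ : V ≤ Γ₁ := inf_le_left
  have hVg : ∀ l, V ≤ (Y l).gal (x l) := fun l => inf_le_right.trans (iInf_le _ l)
  set K : ι → Subgroup V := fun l => stabilizer V (x l) with hK
  have hKmem : ∀ l (v : V), v ∈ K l ↔ (v : G) • x l = x l := fun l v => Iff.rfl
  have hstab : ∀ (l : ι) (g : G) (v : G), v ∈ (Y l).gal (x l) → v • g • x l = g • x l →
      g ∈ (Y l).gal (x l) → v • x l = x l := by
    intro l g v hv h hg
    have h1 := (hY l).comm (x l) v hv g hg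
    rw [h] at h1
    exact (smul_left_cancel g h1).symm
  have hc : ∀ l, ∀ σ τ : V, σ * τ * σ⁻¹ * τ⁻¹ ∈ K l := by
    intro l σ τ
    rw [hKmem]
    have h1 := (hY l).comm ((σ : G)⁻¹ • (τ : G)⁻¹ • x l) (σ : G)
      (by rw [(hY l).gal_smul, (hY l).gal_smul]; exact hVg l σ.2) (τ : G)
      (by rw [(hY l).gal_smul, (hY l).gal_smul]; exact hVg l τ.2)
    have e1 : ((σ * τ * σ⁻¹ * τ⁻¹ : V) : G) • x l = (σ : G) • (τ : G) • (σ : G)⁻¹ • (τ : G)⁻¹ • x l := by
      simp [smul_smul, mul_assoc]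
    rw [e1, h1]
    simp [smul_smul, mul_assoc]
  have hfin : ∀ l, (K l).index ≠ 0 := by
    intro l
    rw [hK, index_stabilizer]
    refine (Set.ncard_pos ?_).2 ⟨x l, mem_orbit_self _⟩ |>.ne'
    refine ((hY l).finite_orbit (x l)).subset ?_
    rintro _ ⟨v, rfl⟩
    exact ⟨(v : G), rfl⟩
  -- conjugations
  have hex : ∀ j k, ∃ g : G, ¬ Linked x j k → (∀ l, g ∈ (Y l).real (x l)) ∧ g ∈ (Y j).gal (x j) ∧
      g ∉ (Y k).gal (x k) := by
    intro j k
    by_cases h : Linked x j k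
    · exact ⟨1, fun h' => absurd h h'⟩
    · have h' := h
      rw [Linked] at h'
      push Not at h'
      obtain ⟨g, hg⟩ := h'
      exact ⟨g, fun _ => hg⟩
  choose g hg using hex
  haveI := hVn
  let φ : ι → ι → V →* V := fun j k => (MulAut.conjNormal (g j k) : MulAut V).toMonoidHom
  have hφ : ∀ j k (v : V), ((φ j k v : V) : G) = g j k * v * (g j k)⁻¹ := fun j k v =>
    MulAut.conjNormal_apply _ _
  have comm_conj : ∀ (l : ι) (a : G) (v : V), a ∈ (Y l).gal (x l) →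
      (a * v * a⁻¹) • x l = (v : G) • x l := by
    intro l a v ha
    have h1 := (hY l).comm (a⁻¹ • x l) a (by rw [(hY l).gal_smul]; exact ha) (v : G)
      (by rw [(hY l).gal_smul]; exact hVg l v.2)
    rw [mul_smul, mul_smul, h1, smul_inv_smul]
  have h1 : ∀ j k, ¬ Linked x j k → ∀ v, φ j k v * v⁻¹ ∈ K j := by
    intro j k hkj v
    rw [hKmem]
    have hw : ((φ j k v : V) : G) • x j = (v : G) • x j := by
      rw [hφ]
      exact comm_conj j _ v (hg j k hkj).2.1
    have h5 := (hY j).comm (x j) ((φ j k v : V) : G) (hVg j (φ j k v).2) ((v : G)⁻¹)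
      ((Y j).gal (x j) |>.inv_mem (hVg j v.2))
    change (((φ j k v : V) : G) * (v : G)⁻¹) • x j = x j
    rw [mul_smul, h5, hw, inv_smul_smul]
  have h2 : ∀ j k, ¬ Linked x j k → ∀ v, φ j k v * v ∈ K k := by
    intro j k hkj v
    rw [hKmem]
    have := hinv k (x k) (g j k) ((hg j k hkj).1 k) (hg j k hkj).2.2 v (hVg k v.2) (hVΓ v.2)
    change (((φ j k v : V) : G) * (v : G)) • x k = x k
    rw [hφ]
    exact this
  have h3 : ∀ j k, ¬ Linked x j k → ∀ l, ∀ v ∈ K l, φ j k v ∈ K l := by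
    intro j k hkj l v hv
    rw [hKmem] at hv ⊢
    rw [hφ]
    by_cases hgl : g j k ∈ (Y l).gal (x l)
    · rw [comm_conj l _ v hgl, hv]
    · have h4 := hinv l (x l) (g j k) ((hg j k hkj).1 l) hgl v (hVg l v.2) (hVΓ v.2)
      rw [mul_smul, hv] at h4
      exact h4
  set s : ι → Finset ι := fun j => Finset.univ.filter fun k => r k < r j ∧ ¬ Linked x j k with hs
  have hsL : ∀ j, ∀ k ∈ s j, ¬ Linked x j k := by
    intro j k hk
    rw [hs, Finset.mem_filter] at hk
    exact hk.2.2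
  set B : ι → Subgroup V := fun j => ⨅ k, ⨅ _ : r k < r j ∧ Linked x j k, K k with hB
  set D : ι → Subgroup V := fun j => B j ⊓ ⨅ k, (if k ∈ s j then K k else ⊤) with hD
  have hDK : ∀ j k, r k < r j → D j ≤ K k := by
    intro j k hkj
    by_cases hL : Linked x j k
    · exact inf_le_left.trans ((iInf_le _ k).trans (iInf_le _ ⟨hkj, hL⟩))
    · refine inf_le_right.trans ((iInf_le _ k).trans ?_)
      rw [if_pos (by simp [hs, hkj, hL])]
  have hKn : ∀ l, (K l).Normal := by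
    intro l
    refine ⟨fun n hn g => ?_⟩
    have h := (K l).mul_mem (hc l g n) hn
    rwa [inv_mul_cancel_right] at h
  have hDn : ∀ j, (D j).Normal := by
    intro j
    haveI : (B j).Normal := normal_iInf_normal fun k => normal_iInf_normal fun _ => hKn k
    haveI : (⨅ k, (if k ∈ s j then K k else ⊤) : Subgroup V).Normal := by
      refine normal_iInf_normal fun k => ?_
      split_ifs
      · exact hKn k
      · infer_instance
    change (B j ⊓ _ : Subgroup V).Normal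
    infer_instance
  have hBφ : ∀ j, ∀ k ∈ s j, ∀ v ∈ B j, φ j k v ∈ B j := by
    intro j k hk v hv
    simp only [hB, mem_iInf] at hv ⊢
    exact fun l hl => h3 j k (hsL j k hk) l v (hv l hl)
  refine ⟨fun j => (D j).map V.subtype, fun j => map_subtype_le _, ?_, ?_, ?_⟩
  · rintro j v hv _ ⟨d, hd, rfl⟩
    exact ⟨⟨v, hv⟩ * d * ⟨v, hv⟩⁻¹, (hDn j).conj_mem d hd _, rfl⟩
  · rintro j k hkj _ ⟨d, hd, rfl⟩ v hv
    have h4 : ((d : V) : G) • x k = x k := (hKmem k d).1 (hDK j k hkj hd)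
    have h5 := (hY k).comm (x k) (d : G) (hVg k d.2) v (hVg k hv)
    change (d : G) • v • x k = v • x k
    rw [h5, h4]
  · intro j
    have key := index_le K hc hfin j (φ j) (s j) (fun k hk => h1 j k (hsL j k hk))
      (fun k hk => h2 j k (hsL j k hk)) (fun k hk => h3 j k (hsL j k hk)) (B j) (hBφ j)
    rw [orbit_map, orbit_ncard (G := V) (D j) (x j)]
    have e1 : (K j).index = (orbit V (x j)).ncard := index_stabilizer V (x j)
    rw [← e1]
    refine key.trans (Nat.mul_le_mul_right _ (Nat.mul_le_mul_left _ ?_))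
    have ht1 : 1 ≤ (torsion (Y j) (x j)).ncard := by
      refine (Set.ncard_pos ?_).2 ⟨x j, 1, one_mem _, one_smul _ _, by simp⟩
      refine ((hY j).finite_orbit (x j)).subset ?_
      rintro _ ⟨σ, -, rfl, -⟩
      exact ⟨σ, rfl⟩
    exact (Nat.pow_le_pow_left (tor_le (hY j) (x j) V (hVg j)) _).trans
      (Nat.pow_le_pow_right ht1 (Finset.card_le_univ _))

/-- The overlap is at most the product of the sizes of the orbits of the preceding linked coordinates. -/
theorem overlap_le {ι : Type} [Fintype ι] {Y : ι → SpecialPoints G} {Γ Γ₁ : Subgroup G}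
    (hY : ∀ j, IsSpecial Γ Γ₁ (Y j)) (r : ι → ℕ) (x : ∀ j, (Y j).P) (j : ι)
    [DecidablePred fun k => r k < r j ∧ Linked x j k] :
    overlap Γ₁ r x j ≤ ∏ k, (if r k < r j ∧ Linked x j k then (orbit G (x k)).ncard else 1) := by
  classical
  have h0 : (⨅ k, ⨅ _ : r k < r j ∧ Linked x j k, stabilizer (coreOf Γ₁ x) (x k)) =
      ⨅ k, (if r k < r j ∧ Linked x j k then stabilizer (coreOf Γ₁ x) (x k) else ⊤) := by
    refine iInf_congr fun k => ?_
    split_ifs with h
    · simp [h]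
    · simp [h]
  have hsub : ∀ k, orbit (coreOf Γ₁ x) (x k) ⊆ orbit G (x k) := by
    rintro k _ ⟨v, rfl⟩
    exact ⟨(v : G), rfl⟩
  have hst : ∀ k, (stabilizer (coreOf Γ₁ x) (x k)).index ≠ 0 := by
    intro k
    rw [index_stabilizer]
    exact (Set.ncard_pos (((hY k).finite_orbit (x k)).subset (hsub k))).2
      ⟨x k, mem_orbit_self _⟩ |>.ne'
  have h1 : (⨅ k, (if r k < r j ∧ Linked x j k then stabilizer (coreOf Γ₁ x) (x k) else ⊤) :
      Subgroup (coreOf Γ₁ x)).index ≠ 0 := by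
    refine index_iInf_ne_zero fun k => ?_
    split_ifs
    · exact hst k
    · simp
  rw [overlap, h0]
  refine (Nat.le_of_dvd (Nat.pos_of_ne_zero h1) (index_dvd_of_le le_sup_right)).trans
    ((index_iInf_le _).trans (Finset.prod_le_prod' fun k _ => ?_))
  split_ifs with h
  · rw [index_stabilizer]
    exact Set.ncard_le_ncard (hsub k) ((hY k).finite_orbit (x k))
  · simp

theorem overlap_eq_one {ι : Type} {Y : ι → SpecialPoints G} {Γ₁ : Subgroup G} {r : ι → ℕ}
    {x : ∀ j, (Y j).P} {j : ι} (h : ∀ k, k ≠ j → ¬ Linked x j k) : overlap Γ₁ r x j = 1 := by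
  have h0 : (⨅ k, ⨅ _ : r k < r j ∧ Linked x j k, stabilizer (coreOf Γ₁ x) (x k)) = ⊤ := by
    refine iInf_eq_top.2 fun k => iInf_eq_top.2 fun hk => ?_
    by_cases hkj : k = j
    · rw [hkj] at hk
      exact absurd hk.1 (lt_irrefl _)
    · exact absurd hk.2 (h k hkj)
  rw [overlap, h0, sup_top_eq, index_top]

end Pool.Agent.U980.SH
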