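import Mathlib
import Pool.Agent.U980.SH.Grp
import Pool.Agent.U980.EQ.Main

/-!
# Equidistribution on products of Shimura varieties
-/

set_option autoImplicit false
set_option linter.style.haveILetI false

namespace Pool.Agent.U980.SH

open MulAction MeasureTheory Filter Topology ProbabilityTheory
open Pool.Agent.U980.EQ (av avg_block av_equiv integral_uniformOn_image tendsto_of_pi_sets growth)

section block

variable {G : Type} [Group G]

theorem orbit_smul_ncard {P : Type} [MulAction G P] {Γ Δ : Subgroup G}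
    (hΔ : ∀ g ∈ Γ, ∀ d ∈ Δ, g * d * g⁻¹ ∈ Δ) {g : G} (hg : g ∈ Γ)
    (p : P) : (orbit Δ (g • p)).ncard = (orbit Δ p).ncard := by
  have h : orbit Δ (g • p) = (fun q => g • q) '' orbit Δ p := by
    ext q
    constructor
    · rintro ⟨d, rfl⟩
      refine ⟨(g⁻¹ * d * g) • p, ⟨⟨g⁻¹ * d * g, ?_⟩, rfl⟩, ?_⟩
      · have := hΔ g⁻¹ (Γ.inv_mem hg) d d.2
        rwa [inv_inv] at this
      · change g • (g⁻¹ * (d : G) * g) • p = (d : G) • g • p
        simp [smul_smul, mul_assoc]
    · rintro ⟨_, ⟨d, rfl⟩, rfl⟩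
      refine ⟨⟨g * d * g⁻¹, hΔ g hg d d.2⟩, ?_⟩
      change (g * (d : G) * g⁻¹) • g • p = g • (d : G) • p
      simp [smul_smul]
  rw [h, Set.ncard_image_of_injective _ (MulAction.injective g)]

/-- Averaging over the orbits of a normal subgroup. -/
theorem exists_far {Z : Type} [MulAction G Z] {Γ Δ : Subgroup G}
    (hΔ : ∀ g ∈ Γ, ∀ d ∈ Δ, g * d * g⁻¹ ∈ Δ) (hle : Δ ≤ Γ) {x : Z} {O : Finset Z}
    (hO : (O : Set Z) = orbit Γ x) (h : Z → ℝ) (h1 : ∀ y ∈ O, |h y| ≤ 1)
    (hinv : ∀ y ∈ O, ∀ δ ∈ Δ, h (δ • y) = h y) (φ : Z → ℝ) (μ : ℝ) :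
    ∃ y ∈ O, ∀ T : Finset Z, (T : Set Z) = orbit Δ y →
      |av O (fun z => h z * φ z) - μ * av O h| ≤ |av T φ - μ| := by
  classical
  have hmem : ∀ y, y ∈ O ↔ y ∈ orbit Γ x := fun y => by rw [← hO, Finset.mem_coe]
  have hxO : x ∈ O := (hmem x).2 (mem_orbit_self x)
  have hRfin : ∀ y ∈ O, (orbit Δ y).Finite := by
    intro y hy
    refine (O.finite_toSet).subset ?_
    rintro _ ⟨d, rfl⟩
    rw [Finset.mem_coe, hmem]
    rw [hmem] at hy
    exact (orbit_eq_iff.2 hy) ▸ (⟨⟨d, hle d.2⟩, rfl⟩ : (d : G) • y ∈ orbit Γ y)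
  set R : Z → Finset Z := fun y => if hy : y ∈ O then (hRfin y hy).toFinset else ∅ with hR
  have hRy : ∀ y (hy : y ∈ O), (R y : Set Z) = orbit Δ y := by
    intro y hy
    simp only [hR]
    rw [dif_pos hy, Set.Finite.coe_toFinset]
  have hRmem : ∀ y ∈ O, ∀ z, z ∈ R y ↔ z ∈ orbit Δ y := fun y hy z => by
    rw [← hRy y hy, Finset.mem_coe]
  set b := (orbit Δ x).ncard with hb
  have hcard : ∀ y ∈ O, (R y).card = b := by
    intro y hy
    rw [← Set.ncard_coe_finset, hRy y hy]
    obtain ⟨g, rfl⟩ := (hmem y).1 hy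
    exact orbit_smul_ncard hΔ g.2 x
  have hb0 : 0 < b := (Set.ncard_pos (hRfin x hxO)).2 ⟨x, mem_orbit_self x⟩
  have hRO : ∀ y ∈ O, R y ⊆ O := by
    intro y hy z hz
    rw [hRmem y hy] at hz
    obtain ⟨d, rfl⟩ := hz
    rw [hmem] at hy ⊢
    exact (orbit_eq_iff.2 hy) ▸ (⟨⟨d, hle d.2⟩, rfl⟩ : (d : G) • y ∈ orbit Γ y)
  have havR : ∀ y ∈ O, (∑ z ∈ R y, h z * φ z) / b = h y * av (R y) φ := by
    intro y hy
    have e1 : ∑ z ∈ R y, h z * φ z = h y * ∑ z ∈ R y, φ z := by
      rw [Finset.mul_sum]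
      refine Finset.sum_congr rfl fun z hz => ?_
      rw [hRmem y hy] at hz
      obtain ⟨d, rfl⟩ := hz
      have h3 : h (d • y) = h y := hinv y hy d d.2
      rw [h3]
    rw [e1, av, hcard y hy, mul_div_assoc]
  have hsum : ∑ y ∈ O, h y * φ y = ∑ y ∈ O, h y * av (R y) φ := by
    have e := avg_block O R b hb0 hRO hcard (fun y hy z hz hzy => by
      rw [hRmem y hy] at hzy
      rw [hRmem z hz]
      exact mem_orbit_symm.1 hzy) (fun z => h z * φ z)
    rw [← e]
    exact Finset.sum_congr rfl havR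
  have hOpos : (0 : ℝ) < O.card := by exact_mod_cast Finset.card_pos.2 ⟨x, hxO⟩
  have hdiff : av O (fun z => h z * φ z) - μ * av O h =
      (∑ y ∈ O, h y * (av (R y) φ - μ)) / O.card := by
    rw [av, av, hsum, mul_div_assoc', ← sub_div, Finset.mul_sum, ← Finset.sum_sub_distrib]
    congr 1
    exact Finset.sum_congr rfl fun y _ => by ring
  obtain ⟨y, hy, hmax⟩ := Finset.exists_max_image O (fun y => |av (R y) φ - μ|) ⟨x, hxO⟩
  refine ⟨y, hy, fun T' hT' => ?_⟩
  have hTT : T' = R y := by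
    apply Finset.coe_injective
    rw [hT', hRy y hy]
  rw [hTT, hdiff, abs_div, abs_of_pos hOpos, div_le_iff₀ hOpos]
  refine (Finset.abs_sum_le_sum_abs _ _).trans ?_
  have : ∑ z ∈ O, |h z * (av (R z) φ - μ)| ≤ ∑ _z ∈ O, |av (R y) φ - μ| := by
    refine Finset.sum_le_sum fun z hz => ?_
    rw [abs_mul]
    calc |h z| * |av (R z) φ - μ| ≤ 1 * |av (R z) φ - μ| :=
          mul_le_mul_of_nonneg_right (h1 z hz) (abs_nonneg _)
      _ ≤ |av (R y) φ - μ| := by rw [one_mul]; exact hmax z hz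
  refine this.trans (le_of_eq ?_)
  rw [Finset.sum_const, nsmul_eq_mul, mul_comm]

end block

variable {G : Type} [Group G] {Γ Γ₁ : Subgroup G} {ι : Type} [Fintype ι] {Y : ι → SpecialPoints G}

/-- The equidistribution of the orbits of `coreOf Γ₁ (x i)`. -/
theorem main_core (hΓ₁ : Γ₁.Normal) (hle : Γ₁ ≤ Γ) (hfi : Γ₁.index ≠ 0)
    (hY : ∀ j, IsSpecial Γ Γ₁ (Y j)) {δ : ℝ}
    (hE : ∀ j, SparseEquidistribution Γ (Y j) δ) (x : ℕ → ∀ j, (Y j).P)
    (hx : ∀ i j, x i j ∈ (Y j).comp) (hD : ∀ j, Tendsto (fun i => (Y j).size (x i j)) atTop atTop)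
    (r : ℕ → ι → ℕ) (hr : ∀ i, Function.Injective (r i)) {η c : ℝ} (hη : η < δ)
    (hov : ∀ j, ∀ᶠ i in atTop, (overlap Γ₁ (r i) (x i) j : ℝ) ≤ c * ((Y j).size (x i j) : ℝ) ^ η)
    (f : BoundedContinuousFunction (∀ j, (Y j).X) ℝ) :
    Tendsto (fun i => ∫ z, f z ∂(galoisMeasure (coreOf Γ₁ (x i)) (x i))) atTop
      (𝓝 (∫ z, f z ∂(Measure.pi fun j => (Y j).m))) := by
  classical
  choose Δ hΔV hΔn hΔfix hΔc using fun i => exists_delta (Γ := Γ) hΓ₁ hY (r i) (x i)
  set V : ℕ → Subgroup G := fun i => coreOf Γ₁ (x i) with hV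
  have hVΓ : ∀ i, V i ≤ Γ := fun i => inf_le_left.trans hle
  have hVg : ∀ i j, V i ≤ (Y j).gal (x i j) := fun i j => inf_le_right.trans (iInf_le _ j)
  choose C₀ hC₀ using fun j => (hY j).bounded
  set K : ℕ := Γ₁.index * ∏ j, C₀ j with hK
  have hVi : ∀ i, (V i).index ≤ K := fun i =>
    Subgroup.index_inf_le.trans (Nat.mul_le_mul_left _ ((Subgroup.index_iInf_le _).trans
      (Finset.prod_le_prod' fun j _ => hC₀ j (x i j))))
  have hV0 : ∀ i, (V i).index ≠ 0 := fun i =>
    Subgroup.index_inf_ne_zero hfi (Subgroup.index_iInf_ne_zero fun j => (hY j).gal_index _)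
  set F : (∀ j, (Y j).P) → ∀ j, (Y j).X := fun y j => (Y j).pt (y j) with hF
  have hFinj : Function.Injective F := by
    intro y z hyz
    funext j
    exact (hY j).pt_inj (congrFun hyz j)
  have hsub : ∀ (H : Subgroup G) (j : ι) (p : (Y j).P), (orbit H p).Finite := by
    intro H j p
    refine ((hY j).finite_orbit p).subset ?_
    rintro _ ⟨h, rfl⟩
    exact ⟨(h : G), rfl⟩
  have hOfin : ∀ i, (orbit (V i) (x i)).Finite := by
    intro i
    refine (Set.Finite.pi' fun j => hsub (V i) j (x i j)).subset ?_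
    rintro _ ⟨g, rfl⟩ j
    exact ⟨g, rfl⟩
  set O : ℕ → Finset (∀ j, (Y j).P) := fun i => (hOfin i).toFinset with hO
  have hOc : ∀ i, (O i : Set (∀ j, (Y j).P)) = orbit (V i) (x i) := fun i => Set.Finite.coe_toFinset _
  have hOmem : ∀ i y, y ∈ O i ↔ y ∈ orbit (V i) (x i) := fun i y => Set.Finite.mem_toFinset _
  have hxO : ∀ i, x i ∈ O i := fun i => (hOmem i _).2 (mem_orbit_self _)
  have hOj : ∀ i, ∀ y ∈ O i, ∀ j, ∃ g ∈ V i, y j = g • x i j := by
    intro i y hy j
    obtain ⟨g, hg⟩ := (hOmem i y).1 hy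
    exact ⟨g, g.2, by rw [← hg]; rfl⟩
  -- the equidistribution in one coordinate
  have one : ∀ (j : ι) (y : ℕ → ∀ j, (Y j).P), (∀ i, y i ∈ O i) →
      ∀ f' : BoundedContinuousFunction (Y j).X ℝ,
      Tendsto (fun i => ∫ z, f' z ∂(uniformOn ((Y j).pt '' orbit (Δ i j) (y i j)))) atTop
        (𝓝 (∫ z, f' z ∂(Y j).m)) := by
    intro j y hy f'
    have hdisc : ∀ i, (Y j).size (y i j) = (Y j).size (x i j) := by
      intro i
      obtain ⟨g, -, hg⟩ := hOj i _ (hy i) j
      rw [hg, (hY j).size_smul]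
    refine hE j (fun i => y i j) (fun i => Δ i j) ?_ ?_ ?_ ?_ f'
    · intro i
      obtain ⟨g, hg, hgy⟩ := hOj i _ (hy i) j
      rw [hgy]
      exact (hY j).comp_smul g (hVΓ i hg) _ (hx i j)
    · intro i
      obtain ⟨g, hg, hgy⟩ := hOj i _ (hy i) j
      rw [hgy, (hY j).gal_smul]
      exact (hΔV i j).trans (le_inf (hVΓ i) (hVg i j))
    · exact (hD j).congr fun i => (hdisc i).symm
    · choose C hC using fun (ε : ℝ) (hε : 0 < ε) => (hY j).tor ε hε
      obtain ⟨ε, hε, hgr⟩ := growth (hD j) hη (Fintype.card ι) (K : ℝ) c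
        (fun ε => if h : 0 < ε then C ε h else 0)
      simp only [dif_pos hε] at hgr
      filter_upwards [hgr, hov j] with i hi hovi
      have h1 : (orbit Γ (x i j)).ncard ≤ K * (orbit (V i) (x i j)).ncard := by
        rw [Pool.Agent.U980.EQ.orbit_ncard, Pool.Agent.U980.EQ.orbit_ncard]
        set S := stabilizer G (x i j) with hS
        have hS0 : S.index ≠ 0 := Pool.Agent.U980.EQ.stab_index ((hY j).finite_orbit (x i j))
        calc S.relIndex Γ ≤ (S ⊓ V i).relIndex Γ :=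
              Subgroup.relIndex_le_of_le_left inf_le_left
                (Pool.Agent.U980.EQ.rel_ne (Subgroup.index_inf_ne_zero hS0 (hV0 i)) _)
          _ = S.relIndex (V i ⊓ Γ) * (V i).relIndex Γ := (Subgroup.relIndex_inf_mul_relIndex _ _ _).symm
          _ = S.relIndex (V i) * (V i).relIndex Γ := by rw [inf_of_le_left (hVΓ i)]
          _ ≤ S.relIndex (V i) * K :=
              Nat.mul_le_mul_left _ ((Pool.Agent.U980.EQ.rel_le (hV0 i) _).trans (hVi i))
          _ = K * S.relIndex (V i) := mul_comm _ _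
      have h2 := hΔc i j
      have h3 : ((orbit Γ (x i j)).ncard : ℝ) ≤ (K : ℝ) * overlap Γ₁ (r i) (x i) j *
          ((torsion (Y j) (x i j)).ncard : ℝ) ^ Fintype.card ι *
            (orbit (Δ i j) (x i j)).ncard := by
        have h2' := h1.trans (Nat.mul_le_mul_left K h2)
        calc ((orbit Γ (x i j)).ncard : ℝ) ≤ ((K * (overlap Γ₁ (r i) (x i) j *
              (torsion (Y j) (x i j)).ncard ^ Fintype.card ι *
                (orbit (Δ i j) (x i j)).ncard) : ℕ) : ℝ) := by exact_mod_cast h2'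
          _ = _ := by push_cast; ring
      have h4 : orbit Γ (y i j) = orbit Γ (x i j) := by
        obtain ⟨g, hg, hgy⟩ := hOj i _ (hy i) j
        rw [hgy]
        exact orbit_eq_iff.2 ⟨⟨g, hVΓ i hg⟩, rfl⟩
      have h5 : (orbit (Δ i j) (y i j)).ncard = (orbit (Δ i j) (x i j)).ncard := by
        obtain ⟨g, hg, hgy⟩ := hOj i _ (hy i) j
        rw [hgy]
        exact orbit_smul_ncard (hΔn i j) hg _
      rw [hdisc i, h4, h5]
      refine h3.trans (mul_le_mul_of_nonneg_right ?_ (Nat.cast_nonneg _))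
      refine le_trans ?_ hi
      refine mul_le_mul (mul_le_mul_of_nonneg_left hovi (Nat.cast_nonneg _))
        (pow_le_pow_left₀ (Nat.cast_nonneg _) (hC ε hε (x i j)) _) (by positivity) ?_
      exact mul_nonneg (Nat.cast_nonneg _) ((Nat.cast_nonneg _).trans hovi)
  -- probability measures
  let μ : ∀ j, ProbabilityMeasure (Y j).X := fun j => ⟨(Y j).m, inferInstance⟩
  let ν : ℕ → ProbabilityMeasure (∀ j, (Y j).X) := fun i =>
    ⟨galoisMeasure (V i) (x i), isProbabilityMeasure_uniformOn ((hOfin i).image _)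
      ⟨_, _, mem_orbit_self _, rfl⟩⟩
  have hν : Tendsto ν atTop (𝓝 (ProbabilityMeasure.pi μ)) := by
    refine tendsto_of_pi_sets μ ν fun s hs hs0 => ?_
    set φ : ∀ j, (Y j).P → ℝ := fun j p => (s j).indicator (fun _ => (1 : ℝ)) ((Y j).pt p) with hφ
    have hφ01 : ∀ j p, 0 ≤ φ j p ∧ φ j p ≤ 1 := by
      intro j p
      simp only [hφ, Set.indicator]
      split_ifs <;> norm_num
    set mu : ι → ℝ := fun j => ((μ j (s j) : NNReal) : ℝ) with hmu
    have hmu01 : ∀ j, 0 ≤ mu j ∧ mu j ≤ 1 := fun j =>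
      ⟨NNReal.coe_nonneg _, by exact_mod_cast (μ j).apply_le_one (s j)⟩
    -- the worst points
    have hav : ∀ (j : ι) (p : (Y j).P) (H : Subgroup G) (T : Finset (Y j).P),
        (T : Set (Y j).P) = orbit H p →
        av T (φ j) = (uniformOn ((Y j).pt '' orbit H p)).real (s j) := by
      intro j p H T hT
      rw [← hT, ← integral_indicator_one (hs j), av]
      exact (integral_uniformOn_image (hY j).pt_inj T ((s j).indicator 1)).symm
    set dev : ℕ → ∀ j, (∀ j, (Y j).P) → ℝ := fun i j y =>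
      |(uniformOn ((Y j).pt '' orbit (Δ i j) (y j))).real (s j) - mu j| with hdev
    have hworst : ∀ i j, ∃ y ∈ O i, ∀ z ∈ O i, dev i j z ≤ dev i j y := fun i j =>
      Finset.exists_max_image (O i) (dev i j) ⟨x i, hxO i⟩
    choose w hw hwmax using hworst
    have hdev0 : ∀ j, Tendsto (fun i => dev i j (w i j)) atTop (𝓝 0) := by
      intro j
      let ρ : ℕ → ProbabilityMeasure (Y j).X := fun i =>
        ⟨uniformOn ((Y j).pt '' orbit (Δ i j) (w i j j)), isProbabilityMeasure_uniformOn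
          ((hsub _ _ _).image _) ⟨_, _, mem_orbit_self _, rfl⟩⟩
      have h1 : Tendsto ρ atTop (𝓝 (μ j)) := by
        rw [ProbabilityMeasure.tendsto_iff_forall_integral_tendsto]
        exact one j (fun i => w i j) (fun i => hw i j)
      have h2 := ProbabilityMeasure.tendsto_measure_of_null_frontier_of_tendsto h1 (hs0 j)
      have h3 : Tendsto (fun i => ((ρ i (s j) : NNReal) : ℝ)) atTop (𝓝 (mu j)) :=
        (NNReal.tendsto_coe.2 h2)
      have h4 := (h3.sub_const (mu j)).abs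
      rw [sub_self, abs_zero] at h4
      exact h4
    -- the product formula up to the deviations
    have key : ∀ i (T : Finset ι), |av (O i) (fun y => ∏ k ∈ T, φ k (y k)) - ∏ k ∈ T, mu k| ≤
        ∑ k ∈ T, dev i k (w i k) := by
      intro i T
      refine Finset.induction_on_max_value (r i) T ?_ ?_
      · have hOpos : (0 : ℝ) < (O i).card := by exact_mod_cast Finset.card_pos.2 ⟨x i, hxO i⟩
        simp [av, hOpos.ne']
      · intro j T hj hmax ih
        have h1 : ∀ y ∈ O i, |∏ k ∈ T, φ k (y k)| ≤ 1 := by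
          intro y _
          rw [Finset.abs_prod]
          refine Finset.prod_le_one (fun k _ => abs_nonneg _) fun k _ => ?_
          rw [abs_of_nonneg (hφ01 k _).1]
          exact (hφ01 k _).2
        have h2 : ∀ y ∈ O i, ∀ d ∈ Δ i j, ∏ k ∈ T, φ k ((d • y) k) = ∏ k ∈ T, φ k (y k) := by
          intro y hy d hd
          refine Finset.prod_congr rfl fun k hk => ?_
          have hkj : r i k < r i j := by
            refine lt_of_le_of_ne (hmax k hk) fun he => ?_
            exact hj (hr i he ▸ hk)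
          obtain ⟨g, hgV, hg⟩ := hOj i y hy k
          rw [Pi.smul_apply, hg, hΔfix i j k hkj d hd g hgV]
        obtain ⟨y, hy, hyT⟩ := exists_far (Z := ∀ j, (Y j).P) (hΔn i j) (hΔV i j) (hOc i)
          (fun y => ∏ k ∈ T, φ k (y k)) h1 h2 (fun z => φ j (z j)) (mu j)
        have hRfin : (orbit (Δ i j) y).Finite := by
          refine (Set.Finite.pi' fun l => hsub (Δ i j) l (y l)).subset ?_
          rintro _ ⟨g, rfl⟩ l
          exact ⟨g, rfl⟩
        have h3 := hyT hRfin.toFinset (Set.Finite.coe_toFinset _)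
        rw [av_equiv (H := Δ i j) (π := fun z : ∀ j, (Y j).P => z j) (fun g a => rfl) y
          (Set.Finite.coe_toFinset _) (O' := (hsub (Δ i j) j (y j)).toFinset)
          (Set.Finite.coe_toFinset _) (φ j),
          hav j (y j) (Δ i j) _ (Set.Finite.coe_toFinset _)] at h3
        have h4 : av (O i) (fun y => ∏ k ∈ insert j T, φ k (y k)) =
            av (O i) (fun z => (∏ k ∈ T, φ k (z k)) * φ j (z j)) := by
          congr 1
          funext z
          rw [Finset.prod_insert hj, mul_comm]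
        rw [h4, Finset.prod_insert hj, Finset.sum_insert hj]
        set E := av (O i) (fun y => ∏ k ∈ T, φ k (y k)) with hE'
        calc |av (O i) (fun z => (∏ k ∈ T, φ k (z k)) * φ j (z j)) - mu j * ∏ k ∈ T, mu k|
            = |(av (O i) (fun z => (∏ k ∈ T, φ k (z k)) * φ j (z j)) - mu j * E) +
                mu j * (E - ∏ k ∈ T, mu k)| := by congr 1; ring
          _ ≤ |av (O i) (fun z => (∏ k ∈ T, φ k (z k)) * φ j (z j)) - mu j * E| +
                |mu j * (E - ∏ k ∈ T, mu k)| := abs_add_le _ _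
          _ ≤ dev i j (w i j) + ∑ k ∈ T, dev i k (w i k) := by
              refine add_le_add (h3.trans (hwmax i j y hy)) ?_
              rw [abs_mul, abs_of_nonneg (hmu01 j).1]
              calc mu j * |E - ∏ k ∈ T, mu k| ≤ 1 * |E - ∏ k ∈ T, mu k| :=
                    mul_le_mul_of_nonneg_right (hmu01 j).2 (abs_nonneg _)
                _ ≤ _ := by rw [one_mul]; exact ih
    have hsum0 : Tendsto (fun i => ∑ k, dev i k (w i k)) atTop (𝓝 0) := by
      have := tendsto_finsetSum Finset.univ fun k _ => hdev0 k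
      simpa using this
    have hav1 : Tendsto (fun i => av (O i) (fun y => ∏ k, φ k (y k))) atTop (𝓝 (∏ k, mu k)) := by
      rw [tendsto_iff_norm_sub_tendsto_zero]
      exact squeeze_zero (fun i => norm_nonneg _) (fun i => key i Finset.univ) hsum0
    rw [← NNReal.tendsto_coe]
    push_cast
    refine hav1.congr fun i => ?_
    have h5 : ((ν i (Set.univ.pi s) : NNReal) : ℝ) =
        (galoisMeasure (V i) (x i)).real (Set.univ.pi s) := rfl
    rw [h5, ← integral_indicator_one (MeasurableSet.univ_pi hs), galoisMeasure, ← hOc i,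
      integral_uniformOn_image hFinj, av]
    congr 1
    refine Finset.sum_congr rfl fun y _ => ?_
    simp only [hφ, Set.indicator]
    by_cases hall : ∀ j, (Y j).pt (y j) ∈ s j
    · rw [if_pos (by simpa using hall)]
      simp [hall]
    · rw [if_neg (by simpa using hall)]
      push Not at hall
      obtain ⟨j, hj⟩ := hall
      exact Finset.prod_eq_zero (Finset.mem_univ j) (if_neg hj)
  exact (ProbabilityMeasure.tendsto_iff_forall_integral_tendsto.1 hν) f

omit [Fintype ι] in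
theorem coreOf_smul (hY : ∀ j, IsSpecial Γ Γ₁ (Y j)) (g : G) (x : ∀ j, (Y j).P) :
    coreOf Γ₁ (g • x) = coreOf Γ₁ x := by
  unfold coreOf
  congr 1
  exact iInf_congr fun l => by rw [Pi.smul_apply, (hY l).gal_smul]

omit [Fintype ι] in
theorem linked_smul (hY : ∀ j, IsSpecial Γ Γ₁ (Y j)) (g : G) (x : ∀ j, (Y j).P) (j k : ι) :
    Linked (g • x) j k ↔ Linked x j k := by
  simp only [Linked, Pi.smul_apply]
  simp only [(hY _).gal_smul, (hY _).real_smul]

omit [Fintype ι] in
theorem coreOf_normal (hΓ₁ : Γ₁.Normal) (hY : ∀ j, IsSpecial Γ Γ₁ (Y j)) (x : ∀ j, (Y j).P) :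
    (coreOf Γ₁ x).Normal := by
  haveI : (⨅ l, (Y l).gal (x l)).Normal :=
    Subgroup.normal_iInf_normal fun l => (hY l).gal_normal (x l)
  change (Γ₁ ⊓ _ : Subgroup G).Normal
  infer_instance

omit [Fintype ι] in
theorem overlap_smul (hΓ₁ : Γ₁.Normal) (hY : ∀ j, IsSpecial Γ Γ₁ (Y j)) (g : G) (r : ι → ℕ)
    (x : ∀ j, (Y j).P) (j : ι) : overlap Γ₁ r (g • x) j = overlap Γ₁ r x j := by
  haveI := coreOf_normal hΓ₁ hY x
  unfold overlap
  rw [coreOf_smul hY g x]
  simp only [linked_smul hY g x]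
  set V := coreOf Γ₁ x with hV
  let φ : V ≃* V := MulAut.conjNormal g
  have hφ : ∀ v : V, ((φ v : V) : G) = g * v * g⁻¹ := fun v => MulAut.conjNormal_apply _ _
  have hsurj : Function.Surjective φ.toMonoidHom := φ.surjective
  have hst : ∀ k, (stabilizer V ((g • x) k)).comap φ.toMonoidHom = stabilizer V (x k) := by
    intro k
    ext v
    change ((φ v : V) : G) • g • x k = g • x k ↔ (v : G) • x k = x k
    rw [hφ, mul_smul, inv_smul_smul, mul_smul]
    exact ⟨fun h => smul_left_cancel g h, fun h => by rw [h]⟩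
  rw [← Subgroup.index_comap_of_surjective _ hsurj, ← Subgroup.comap_sup_eq φ.toMonoidHom _ _ hsurj,
    Subgroup.comap_iInf]
  simp only [Subgroup.comap_iInf, hst]

/-- **Main theorem.** -/
theorem main (hΓ₁ : Γ₁.Normal) (hle : Γ₁ ≤ Γ) (hfi : Γ₁.index ≠ 0)
    (hY : ∀ j, IsSpecial Γ Γ₁ (Y j)) {δ : ℝ}
    (hE : ∀ j, SparseEquidistribution Γ (Y j) δ) (x : ℕ → ∀ j, (Y j).P)
    (hx : ∀ i j, x i j ∈ (Y j).comp) (hD : ∀ j, Tendsto (fun i => (Y j).size (x i j)) atTop atTop)
    (r : ℕ → ι → ℕ) (hr : ∀ i, Function.Injective (r i)) {η c : ℝ} (hη : η < δ)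
    (hov : ∀ j, ∀ᶠ i in atTop, (overlap Γ₁ (r i) (x i) j : ℝ) ≤ c * ((Y j).size (x i j) : ℝ) ^ η)
    (f : BoundedContinuousFunction (∀ j, (Y j).X) ℝ) :
    Tendsto (fun i => ∫ z, f z ∂(galoisMeasure Γ (x i))) atTop
      (𝓝 (∫ z, f z ∂(Measure.pi fun j => (Y j).m))) := by
  classical
  set F : (∀ j, (Y j).P) → ∀ j, (Y j).X := fun y j => (Y j).pt (y j) with hF
  have hFinj : Function.Injective F := by
    intro y z hyz
    funext j
    exact (hY j).pt_inj (congrFun hyz j)
  have hOfin : ∀ (H : Subgroup G) (y : ∀ j, (Y j).P), (orbit H y).Finite := by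
    intro H y
    have hsub : ∀ j, (orbit H (y j)).Finite := by
      intro j
      refine ((hY j).finite_orbit (y j)).subset ?_
      rintro _ ⟨h, rfl⟩
      exact ⟨(h : G), rfl⟩
    refine (Set.Finite.pi' hsub).subset ?_
    rintro _ ⟨g, rfl⟩ j
    exact ⟨g, rfl⟩
  set I := ∫ z, f z ∂(Measure.pi fun j => (Y j).m) with hI
  have hint : ∀ (H : Subgroup G) (y : ∀ j, (Y j).P) (T : Finset (∀ j, (Y j).P)),
      (T : Set (∀ j, (Y j).P)) = orbit H y →
      ∫ z, f z ∂(galoisMeasure H y) = av T (fun z => f (F z)) := by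
    intro H y T hT
    rw [galoisMeasure, ← hT]
    exact integral_uniformOn_image hFinj T f
  have hex : ∀ i, ∃ y ∈ orbit Γ (x i), |∫ z, f z ∂(galoisMeasure Γ (x i)) - I| ≤
      |∫ z, f z ∂(galoisMeasure (coreOf Γ₁ y) y) - I| := by
    intro i
    haveI := coreOf_normal hΓ₁ hY (x i)
    obtain ⟨y, hy, hyT⟩ := exists_far (Z := ∀ j, (Y j).P) (Γ := Γ) (Δ := coreOf Γ₁ (x i))
      (fun g _ d hd => ‹(coreOf Γ₁ (x i)).Normal›.conj_mem d hd g) (inf_le_left.trans hle)
      (O := (hOfin Γ (x i)).toFinset) (Set.Finite.coe_toFinset _) (fun _ => 1) (fun _ _ => by simp)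
      (fun _ _ _ _ => rfl) (fun z => f (F z)) I
    rw [Set.Finite.mem_toFinset] at hy
    refine ⟨y, hy, ?_⟩
    obtain ⟨g, rfl⟩ := hy
    have e1 : coreOf Γ₁ ((fun m : Γ => m • x i) g) = coreOf Γ₁ (x i) := coreOf_smul hY (g : G) (x i)
    have h1 := hyT (hOfin _ _).toFinset (Set.Finite.coe_toFinset _)
    rw [hint Γ (x i) _ (Set.Finite.coe_toFinset (hOfin Γ (x i))), e1,
      hint (coreOf Γ₁ (x i)) _ _ (Set.Finite.coe_toFinset (hOfin _ _))]
    have hpos : (0 : ℝ) < ((hOfin Γ (x i)).toFinset).card := by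
      exact_mod_cast Finset.card_pos.2 ⟨x i, (Set.Finite.mem_toFinset _).2 (mem_orbit_self _)⟩
    have e2 : av (hOfin Γ (x i)).toFinset (fun _ => (1 : ℝ)) = 1 := by
      rw [av, Finset.sum_const, nsmul_eq_mul, mul_one, div_self hpos.ne']
    simp only [one_mul] at h1
    rw [e2, mul_one] at h1
    exact h1
  choose y hy hle' using hex
  have hyg : ∀ i, ∃ g ∈ Γ, y i = g • x i := by
    intro i
    obtain ⟨g, hg⟩ := hy i
    exact ⟨g, g.2, hg.symm⟩
  have hsize : ∀ i j, (Y j).size (y i j) = (Y j).size (x i j) := by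
    intro i j
    obtain ⟨g, -, hg⟩ := hyg i
    rw [hg, Pi.smul_apply, (hY j).size_smul]
  have key := main_core hΓ₁ hle hfi hY hE y (by
      intro i j
      obtain ⟨g, hgΓ, hg⟩ := hyg i
      rw [hg, Pi.smul_apply]
      exact (hY j).comp_smul g hgΓ _ (hx i j)) (fun j => (hD j).congr fun i => (hsize i j).symm)
    r hr hη (c := c) (by
      intro j
      filter_upwards [hov j] with i hi
      obtain ⟨g, -, hg⟩ := hyg i
      rw [hsize, hg, overlap_smul hΓ₁ hY]
      exact hi) f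
  rw [tendsto_iff_norm_sub_tendsto_zero] at key ⊢
  exact squeeze_zero (fun i => norm_nonneg _) (fun i => hle' i) key

theorem size_tendsto {Y : SpecialPoints G} (hY : IsSpecial Γ Γ₁ Y) {x : ℕ → Y.P}
    (hx : ∀ p, ∀ᶠ i in atTop, x i ≠ p) : Tendsto (fun i => Y.size (x i)) atTop atTop := by
  rw [tendsto_atTop]
  intro B
  have h := (eventually_all_finite (hY.finite_size B)).2 fun p _ => hx p
  filter_upwards [h] with i hi
  by_contra hlt
  push Not at hlt
  exact hi (x i) hlt.le rfl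

end Pool.Agent.U980.SH
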